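import Pool.Agent.Helper84.OB.Stmts

set_option autoImplicit false

universe u

open Set Pool.Agent.Helper84.BT Pool.Agent.Helper84.OB
open scoped Matroid

namespace Pool.Agent.Helper28.OB

theorem st_WZ (hMT : ST_MT.{u}) : ST_WZ.{u} := by
  intro α _ M X Y hT hX hY hpos
  obtain ⟨S, hS⟩ : ∃ S : Set (Set α), S = {W | IsCyclicFlat M W ∧ Y ⊆ W ∧
    rk M X + rk M W ≤ rk M (X ∪ Y) + rk M (X ∩ W)} := ⟨_, rfl⟩
  have hne : S.Nonempty := by
    have hc : IsCyclic M (X ∪ Y) := hX.isCyclic.union hY.isCyclic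
    have hsub : X ∪ Y ⊆ M.closure (X ∪ Y) := M.subset_closure _ hc.subset_ground
    refine ⟨M.closure (X ∪ Y), ?_⟩
    rw [hS]
    refine ⟨hc.isCyclicFlat_closure, subset_union_right.trans hsub, ?_⟩
    rw [rk_closure, inter_eq_self_of_subset_left (subset_union_left.trans hsub), add_comm]
  obtain ⟨W, hW, hmin⟩ := Set.exists_min_image S (fun W => W.ncard) (Set.toFinite S) hne
  have hW' := hW
  rw [hS] at hW'
  obtain ⟨hWc, hYW, hWr⟩ := hW'
  have hall : ∀ V ∈ S, W ⊆ V := by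
    intro V hV
    have hV' := hV
    rw [hS] at hV'
    obtain ⟨hVc, hYV, hVr⟩ := hV'
    obtain ⟨U, hU1, hU2, hU3, hU4⟩ := hMT α M X Y W V hT hX.1 hY hWc hYW hWr hVc hYV hVr
    have hUS : U ∈ S := by rw [hS]; exact ⟨hU1, hU2, hU4⟩
    have h1 := hmin U hUS
    have h2 : U = W := Set.eq_of_subset_of_ncard_le (hU3.trans inter_subset_left) h1
      (Set.toFinite W)
    rw [← h2]
    exact hU3.trans inter_subset_right
  have hWY : ¬ W ⊆ Y := by
    intro h
    have : W = Y := h.antisymm hYW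
    subst this
    omega
  obtain ⟨w, hwW, hwY⟩ := Set.not_subset.mp hWY
  refine ⟨w, hwY, fun V hV hYV hVr => ?_⟩
  exact hall V (by rw [hS]; exact ⟨hV, hYV, hVr⟩) hwW

end Pool.Agent.Helper28.OB
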